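import Pool.Agent.N28.BM.Avg

/-!
# The Breuil-Mezard conjecture for `GL_d`: averages, and one cube of Hodge types

`K / ℚ_p` finite (for example `K = ℚ_p`, `f = 1`, `S` one point) with residue field `k`
(`q = p ^ f` elements), `d = n + 1`, `S = Hom(K, E)`, `ρ̄ : G_K → GL_d(𝔽)`. We fix an embedding `ι`
of `k` into an algebraically closed field `F` of characteristic `p`; the embedding `σ ∈ S` induces
the residue embedding `x ↦ ι(x) ^ (p ^ κ σ)`, `κ : S → ℤ/f` surjective. `t : Fˣ → ℂˣ` is an
injective homomorphism (Brauer lift).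

* `h : Wt S d` is a family of integers; `Dom h`: `h` is a tuple of regular labelled Hodge-Tate
  weights, `h_{σ,1} > ... > h_{σ,d}` for every `σ` (`h = λ + (d - 1, ..., 0)` for a Hodge type `λ`).
* `T` is the set of inertial types; `e τ h` (`h` regular) is the Hilbert-Samuel multiplicity of the
  special fibre of `R^{λ,τ}_{ρ̄}`, extended to all `h` as an alternating function (`Alt`).
* `s h` is the Weyl character of highest weight `h - ρ` (`IsWeyl`), `D` the Serre weights with their
  Brauer characters, `θ τ` the Brauer character of the reduction of `σ(τ)`, and `mult τ h w` the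
  multiplicity of the Serre weight `w` in the reduction of `W(λ) ⊗ σ(τ)` (`IsMult`).
* `dimW s h`, the sum of the coefficients of the Weyl character, is the dimension of `W(λ)`;
  `ordGL k d` is the order of `GL_d(k)`; `cube σ a` has entries `a` at `σ` and zero elsewhere.

**Theorem.** Let `N = |GL_d(k)|` and `σ ∈ S`.

(1) If `e τ` satisfies the difference equations in the Hodge-Tate weights (step `p` at `r` of the
weights at one embedding against step `1` at `r` of the weights at an embedding with Frobenius
conjugate residue embedding; they are a consequence of the conjecture), then the sum of the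
multiplicities over a cube of side `N` is proportional to the dimension: for all tuples `h`
`∑_{a ∈ [0, N)^d} e τ (h + a at σ) = dim W_h · c_τ`, with `c_τ` the sum over the cube at `ρ`.

(2) Suppose that the difference equations hold and that the integers `μ_w ≥ 0` satisfy the inequality
`e τ h ≥ ∑ mult τ h w μ_w` for all `τ` and `h` (the inequality given by patching). If for every `τ`
there is one Hodge type `h` with all gaps at `σ` at least `N` such that the sum over the cube
`h + a`, `a ∈ [0, N)^d` of the differences `e τ (h + a) - ∑ mult τ (h + a) w μ_w` is less than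
`dim W_h`, then `e τ h = ∑ mult τ h w μ_w` for all inertial types `τ` and all Hodge types `h`
(Q1 for `ρ̄`).
-/

namespace Pool.Agent.Results.MP_7b0b46_nt.OneCubeOfHodgeTypes

open Pool.Agent.N28.BM

/-- **Given the difference equations and the patching inequality, the Breuil-Mezard conjecture for
`ρ̄` follows if its identity holds on average over one cube of Hodge types for each inertial type, up
to an error smaller than the dimension of the algebraic representation.** -/
theorem result {k F : Type} [Field k] [Fintype k] [Field F] [IsAlgClosed F] (ι : k →+* F)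
    {p f : ℕ} [Fact p.Prime] [CharP F p] (hk : Fintype.card k = p ^ f) (hf : f ≠ 0)
    {S : Type} [Fintype S] [DecidableEq S] {n : ℕ} (κ : S → ZMod f)
    (hκ : Function.Surjective κ) (t : Fˣ →* ℂˣ) (ht : Function.Injective t)
    (s : Wt S (n + 1) → P S (n + 1)) (hs : IsWeyl s) (D : SerreWeights k F (n + 1) t)
    {T : Type*} (θ : T → Matrix.GeneralLinearGroup (Fin (n + 1)) k → ℂ)
    (mult : T → Wt S (n + 1) → D.W → ℕ)
    (hmult : ∀ τ, IsMult ι (p := p) κ t s D (θ τ) (mult τ))
    (e : T → Wt S (n + 1) → ℤ) (he : ∀ τ, Alt (e τ)) (σ₀ : S) :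
    (∀ τ, (∀ h, Dom h → ∀ σ σ', κ σ' = κ σ + 1 → ∀ r, 1 ≤ r → r ≤ n + 1 →
        shift (e τ) h σ p r = shift (e τ) h σ' 1 r) → ∀ h : Wt S (n + 1),
      ∑ a : Fin (n + 1) → Fin (ordGL k (n + 1)), e τ (h + cube σ₀ a) =
        dimW s h * ∑ a : Fin (n + 1) → Fin (ordGL k (n + 1)),
          e τ ((fun _ => rho n) + cube σ₀ a)) ∧
    ∀ μ : D.W → ℕ, (∀ τ h, Dom h → ∑ w, (mult τ h w : ℤ) * μ w ≤ e τ h) →
      (∀ τ h, Dom h → ∀ σ σ', κ σ' = κ σ + 1 → ∀ r, 1 ≤ r → r ≤ n + 1 →
        shift (e τ) h σ p r = shift (e τ) h σ' 1 r) →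
      (∀ τ, ∃ h, Dom h ∧ Gap (ordGL k (n + 1)) σ₀ h ∧
        ∑ a : Fin (n + 1) → Fin (ordGL k (n + 1)),
          (e τ (h + cube σ₀ a) - ∑ w, (mult τ (h + cube σ₀ a) w : ℤ) * μ w) < dimW s h) →
      ∀ τ h, Dom h → e τ h = ∑ w, (mult τ h w : ℤ) * μ w :=
  ⟨fun τ hE h => average ι hk hf κ hκ t ht s hs (e τ) (he τ)
      (equations_of_dom κ p (e τ) (he τ) hE) σ₀ h,
    fun μ hle hE hone => one_cube ι hk hf κ hκ t ht s hs D θ mult hmult e he σ₀ μ hle hE hone⟩

end Pool.Agent.Results.MP_7b0b46_nt.OneCubeOfHodgeTypes
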