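import Pool.Agent.N886.BM.Fin

/-!
# The Breuil-Mezard conjecture for `GL_d` over `ℚ_p`: one Hodge type in every class modulo `p - 1`

`d = n + 1`, `ρ̄ : G_{ℚ_p} → GL_d(𝔽)`. We fix an embedding `ι` of `k = 𝔽_p` into an algebraically
closed field `F` of characteristic `p` and an injective homomorphism `t : Fˣ → ℂˣ` (Brauer lift).

* `h : Wt Unit d` is a tuple of `d` integers; `Dom h`: `h₁ > ... > h_d` (`h = λ + (d - 1, ..., 0)`
  are the Hodge-Tate weights for the Hodge type `λ`).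
* `e h` (`h` regular) is the Hilbert-Samuel multiplicity of `R^{λ,τ}_{ρ̄} / ϖ` for one inertial
  type `τ`, extended to all tuples of integers as an alternating function (`Alt`).
* `s h` is the Weyl character of highest weight `λ` (`IsWeyl`), `D` the Serre weights with their
  Brauer characters, `θ` the Brauer character of the reduction of `σ(τ)`, and `mult h w` the
  multiplicity `n_{λ,τ}(w)` of the Serre weight `w` in the reduction of `W(λ) ⊗ σ(τ)` (`IsMult`;
  `kap` is the only map `Unit → ℤ/1`).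
* `hty n p a m = p ^ a (ρ + m e₁)`, `ρ = (d - 1, ..., 0)`: the Hodge type
  `λ = (p ^ a - 1) ρ + p ^ a (m, 0, ..., 0)`.

Let `μ_w ≥ 0` be such that `e h ≥ ∑ mult h w μ_w` for all regular `h` (the inequality given by
patching), and let `n d! |GL_d(𝔽_p)| ≤ m₀` and `m₀ + p ≤ p ^ a`.

**Theorem.** (1) `e h = ∑ mult h w μ_w` for all regular `h` if and only if `e` satisfies the
difference equations `∑_{|I| = r} e (h + p on I) = ∑_{|I| = r} e (h + 1 on I)` (`1 ≤ r ≤ d`, `h`
regular) and the equality holds for the `p - 1` Hodge types `hty n p a m`, `m₀ ≤ m < m₀ + p - 1`.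

(2) If `e` satisfies the difference equations and the equality holds for one `hty n p a m`,
`m₀ ≤ m ≤ p ^ a`, it holds for all regular `h` with `∑ hᵢ ≡ ∑ (hty n p a m)ᵢ` modulo `p - 1`.
-/

namespace Pool.Agent.Results.MP_7b0b46_nt.OneHodgeTypePerClass

open Pool.Agent.N28.BM
open Pool.Agent.N886.BM (kap hty)

/-- **The Breuil-Mezard identity for `GL_d` over `ℚ_p` follows from the inequality, the difference
equations and the equality at one Hodge type in every class modulo `p - 1`.** -/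
theorem result {k F : Type} [Field k] [Fintype k] [Field F] [IsAlgClosed F] (ι : k →+* F)
    {p : ℕ} [hp : Fact p.Prime] [CharP F p] (hk : Fintype.card k = p) {n : ℕ}
    (t : Fˣ →* ℂˣ) (ht : Function.Injective t)
    (s : Wt Unit (n + 1) → P Unit (n + 1)) (hs : IsWeyl s) (D : SerreWeights k F (n + 1) t)
    (θ : Matrix.GeneralLinearGroup (Fin (n + 1)) k → ℂ) (mult : Wt Unit (n + 1) → D.W → ℕ)
    (hmult : IsMult ι (p := p) kap t s D θ mult)
    (e : Wt Unit (n + 1) → ℤ) (he : Alt e) (μ : D.W → ℕ)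
    (hμ : ∀ h, Dom h → ∑ w, (mult h w : ℤ) * μ w ≤ e h) (a m₀ : ℕ)
    (hm : n * (Nat.card (Matrix.GeneralLinearGroup (Fin (n + 1)) k) * (n + 1).factorial) ≤ m₀)
    (ha : m₀ + p ≤ p ^ a) :
    ((∀ h, Dom h → e h = ∑ w, (mult h w : ℤ) * μ w) ↔
      (∀ h, Dom h → ∀ r, 1 ≤ r → r ≤ n + 1 → shift e h () p r = shift e h () 1 r) ∧
      ∀ m, m₀ ≤ m → m < m₀ + (p - 1) →
        e (hty n p a m) = ∑ w, (mult (hty n p a m) w : ℤ) * μ w) ∧
    ((∀ h, Dom h → ∀ r, 1 ≤ r → r ≤ n + 1 → shift e h () p r = shift e h () 1 r) →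
      ∀ m, m₀ ≤ m → m ≤ p ^ a → e (hty n p a m) = ∑ w, (mult (hty n p a m) w : ℤ) * μ w →
      ∀ h, Dom h → (∃ b : ℤ, ∑ i, h () i = ∑ i, hty n p a m () i + b * ((p : ℤ) - 1)) →
        e h = ∑ w, (mult h w : ℤ) * μ w) := by
  have hp1 : 1 ≤ p := hp.out.one_lt.le
  have hp2 : 2 ≤ p := hp.out.two_le
  have two : ((∀ h, Dom h → ∀ r, 1 ≤ r → r ≤ n + 1 → shift e h () p r = shift e h () 1 r) →
      ∀ m, m₀ ≤ m → m ≤ p ^ a → e (hty n p a m) = ∑ w, (mult (hty n p a m) w : ℤ) * μ w →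
      ∀ h, Dom h → (∃ b : ℤ, ∑ i, h () i = ∑ i, hty n p a m () i + b * ((p : ℤ) - 1)) →
        e h = ∑ w, (mult h w : ℤ) * μ w) := by
    rintro hE m h1 h2 h3 h hh ⟨b, hb⟩
    exact Pool.Agent.N886.BM.one_type ι hk t ht s hs D θ mult hmult e he hE μ hμ a m
      (hm.trans h1) h2 h3 h hh b hb
  refine ⟨⟨?_, ?_⟩, two⟩
  · intro hid
    refine ⟨fun h hh r h1 h2 => ?_, fun m _ _ => hid _ (Pool.Agent.N886.BM.hty_dom n p a m hp1)⟩
    exact equations_of_bm ι (f := 1) (by rw [pow_one]; exact hk) one_ne_zero kap t s hs D θ mult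
      hmult e he (fun w => ((μ w : ℕ) : ℤ)) (fun h hh => by
        rw [hid h hh]
        refine Finset.sum_congr rfl fun w _ => ?_
        rw [nsmul_eq_mul]) () () (Subsingleton.elim _ _) r h1 h2 h
  · rintro ⟨hE, heq⟩ h hh
    have hq0 : (0 : ℤ) < (p : ℤ) - 1 := by
      have : (2 : ℤ) ≤ p := by exact_mod_cast hp2
      linarith
    set R : ℤ := ∑ i : Fin (n + 1), ((n : ℤ) - i.val) with hR
    set x : ℤ := ∑ i, h () i - R - m₀ with hx
    have hr1 := Int.emod_nonneg x hq0.ne'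
    have hr2 := Int.emod_lt_of_pos x hq0
    have hr3 := Int.emod_def x ((p : ℤ) - 1)
    set m : ℕ := m₀ + (x % ((p : ℤ) - 1)).toNat with hmdef
    have hm1 : (m : ℤ) = m₀ + x % ((p : ℤ) - 1) := by
      rw [hmdef]
      push_cast
      rw [Int.toNat_of_nonneg hr1]
    have hm2 : m < m₀ + (p - 1) := by
      have : (m : ℤ) < ((m₀ + (p - 1) : ℕ) : ℤ) := by
        push_cast [Nat.cast_sub hp1]
        rw [hm1]
        linarith
      exact_mod_cast this
    have hm3 : m ≤ p ^ a := by omega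
    have hs1 : ∑ i, hty n p a m () i = (p : ℤ) ^ a * (R + m) := by
      unfold hty
      rw [← Finset.mul_sum, Finset.sum_add_distrib, hR]
      simp
    obtain ⟨c, hc⟩ : ((p : ℤ) - 1) ∣ (p : ℤ) ^ a - 1 := by
      have h5 := sub_dvd_pow_sub_pow (p : ℤ) 1 a
      rwa [one_pow] at h5
    refine two hE m (by omega) hm3 (heq m (by omega) hm2) h hh
      ⟨x / ((p : ℤ) - 1) - c * (R + m), ?_⟩
    rw [hs1]
    have h6 : (p : ℤ) ^ a = 1 + (p - 1) * c := by linarith
    have h7 : ∑ i, h () i = x + R + m₀ := by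
      rw [hx]
      ring
    rw [h6, h7]
    have h8 : x = (p - 1) * (x / (p - 1)) + x % (p - 1) := by linarith
    have h9 : (m : ℤ) = m₀ + x % ((p : ℤ) - 1) := hm1
    linear_combination h8 - h9

end Pool.Agent.Results.MP_7b0b46_nt.OneHodgeTypePerClass
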